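import Mathlib

/-!
# Relations between the conjugates of a Weil number, and independent fields: definitions
-/

set_option autoImplicit false

namespace Pool.Agent.U124.HQ.Stm

open NumberField Module

variable {K E : Type} [Field K] [Field E]

/-- A multiplicative relation between the conjugates `φ x` of `x`, the number `q` and roots of unity:
the product of the conjugates with the exponents `e φ` is a square root of the power of `q` with the
exponent `∑ e φ`, up to a root of unity. -/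
def IsRelation [NumberField E] (q : ℕ) (x : E) (e : (E →+* ℂ) → ℕ) : Prop :=
  ∃ s : ℕ, 0 < s ∧ (∏ φ, φ x ^ e φ) ^ (2 * s) = (q : ℂ) ^ (s * ∑ φ, e φ)

/-- The relations between the conjugates of `x` are, up to pairs of complex conjugates, defined over
`K`: the differences of the exponents of `φ x` and of its complex conjugate are equal for all `φ`
over the embedding `κ` of `K`. -/
def RelationsOver [NumberField E] (κ : K →+* ℂ) (ι : K →+* E) (q : ℕ) (x : E) : Prop :=
  ∀ e : (E →+* ℂ) → ℕ, IsRelation q x e → ∀ φ ψ : E →+* ℂ, φ.comp ι = κ → ψ.comp ι = κ →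
    (e φ : ℤ) - e (ComplexEmbedding.conjugate φ) = e ψ - e (ComplexEmbedding.conjugate ψ)

/-- The only relations between the conjugates of `x` are those of the pairs of complex conjugates. -/
def IsNeat [NumberField E] (q : ℕ) (x : E) : Prop :=
  ∀ e : (E →+* ℂ) → ℕ, IsRelation q x e → ∀ φ, e φ = e (ComplexEmbedding.conjugate φ)

/-- The automorphisms of `ℂ` are doubly transitive on the embeddings of `E` over `κ`. -/
def IsDoublyTransitive (κ : K →+* ℂ) (ι : K →+* E) : Prop :=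
  ∀ φ ψ φ' ψ' : E →+* ℂ, φ.comp ι = κ → ψ.comp ι = κ → φ'.comp ι = κ → ψ'.comp ι = κ →
    φ ≠ ψ → φ' ≠ ψ' → ∃ σ : ℂ ≃+* ℂ, (σ : ℂ →+* ℂ).comp φ = φ' ∧ (σ : ℂ →+* ℂ).comp ψ = ψ'

/-- For any embeddings `φ` and `ψ` of `E`, where `ψ` is different from `φ` and its complex conjugate,
some automorphism of `ℂ` fixes `φ` and maps `ψ` to its complex conjugate. -/
def HasSignChanges (E : Type) [Field E] : Prop :=
  ∀ φ ψ : E →+* ℂ, ψ ≠ φ → ψ ≠ ComplexEmbedding.conjugate φ →
    ∃ σ : ℂ ≃+* ℂ, (σ : ℂ →+* ℂ).comp φ = φ ∧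
      (σ : ℂ →+* ℂ).comp ψ = ComplexEmbedding.conjugate ψ

/-- No power of `x` belongs to `K`. -/
def NoPowerIn (ι : K →+* E) (x : E) : Prop := ∀ m : ℕ, 0 < m → x ^ m ∉ Set.range ι

/-- The slopes of the conjugates of `x` are `(a + c * d φ) / 2`, where `c ≠ 0` is a real number and
`d` is a function with integral values on the complex embeddings. -/
def HasSlopes {p : ℕ} [Fact p.Prime] (ν : PadicAlgCl p ≃+* ℂ) (a : ℕ) (x : E)
    (d : (E →+* ℂ) → ℤ) : Prop :=
  ∃ c : ℝ, c ≠ 0 ∧ ∀ φ : E →+* ℂ, -Real.logb p ‖ν.symm (φ x)‖ = (a + c * d φ) / 2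

/-- The Weil numbers `x` for `p ^ a` in a field `E` which contains `K` (by `ι`) that are treated here;
`κ` is an embedding of `K`. -/
def KindOver [NumberField E] {p : ℕ} [Fact p.Prime] (ν : PadicAlgCl p ≃+* ℂ) (κ : K →+* ℂ)
    (ι : K →+* E) (a : ℕ) (x : E) : Prop :=
  Function.Surjective ι ∨
  (IsDoublyTransitive κ ι ∧ NoPowerIn ι x) ∨
  ((∃ g : ℕ, g.Prime ∧ finrank ℚ E = 2 * g) ∧ NoPowerIn ι x) ∨
  (∃ (r n : ℕ) (d : (E →+* ℂ) → ℤ), r.Prime ∧ r ≠ 2 ∧ finrank ℚ E = 2 * r ^ n ∧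
    (∀ φ, d (ComplexEmbedding.conjugate φ) = -d φ) ∧ HasSlopes ν a x d ∧
    ¬ (r : ℤ) ∣ ∑ᶠ φ : {φ : E →+* ℂ // φ.comp ι = κ}, d φ.1) ∨
  RelationsOver κ ι (p ^ a) x

/-- The Weil numbers `x` for `q` without relations that are treated here. -/
def KindFree [NumberField E] (q : ℕ) (x : E) : Prop :=
  (HasSignChanges E ∧ ∀ m : ℕ, 0 < m → x ^ (2 * m) ≠ (q : E) ^ m) ∨ IsNeat q x

variable {I : Type} {F : I → Type} [∀ i, Field (F i)]

/-- The automorphism `σ` fixes all complex embeddings of the fields `F k` with `k ≠ i`. -/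
def FixesOthers (F : I → Type) [∀ i, Field (F i)] (i : I) (σ : ℂ ≃+* ℂ) : Prop :=
  ∀ k, k ≠ i → ∀ ψ : F k →+* ℂ, (σ : ℂ →+* ℂ).comp ψ = ψ

/-- The automorphisms of `ℂ` that fix the complex embeddings of all other fields are transitive on
the embeddings of `F i` over `κ`. -/
def IndepOver (κ : K →+* ℂ) (i : I) (ι : K →+* F i) : Prop :=
  ∀ φ φ' : F i →+* ℂ, φ.comp ι = κ → φ'.comp ι = κ → ∃ σ : ℂ ≃+* ℂ,
    (σ : ℂ →+* ℂ).comp φ = φ' ∧ FixesOthers F i σ

/-- Each complex embedding of `F i` is mapped to its complex conjugate by an automorphism of `ℂ` that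
fixes the complex embeddings of all other fields. -/
def IndepConj (F : I → Type) [∀ i, Field (F i)] (i : I) : Prop :=
  ∀ φ : F i →+* ℂ, ∃ σ : ℂ ≃+* ℂ,
    (σ : ℂ →+* ℂ).comp φ = ComplexEmbedding.conjugate φ ∧ FixesOthers F i σ

end Pool.Agent.U124.HQ.Stm
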