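import Pool.Agent.N202.QR.Defs

/-!
# Independent factors: definitions
-/

set_option autoImplicit false

namespace Pool.Agent.U124.HQ

open NumberField Pool.Agent.W495.TA Pool.Agent.TH117.BL Pool.Agent.N202.QR

/-- The embeddings of `E` which extend the embedding `κ` of `K`. -/
abbrev Above {K E : Type} [Field K] [Field E] (κ : K →+* ℂ) (ι : K →+* E) : Type :=
  {φ : E →+* ℂ // φ.comp ι = κ}

variable {p : ℕ} [Fact p.Prime] {ν : PadicAlgCl p ≃+* ℂ} {K : Type} [Field K]

/-- The relations between the Frobenius eigenvalues of the factor `i` are, up to pairs of complex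
conjugate eigenvalues, defined over `K`: the exponents of the eigenvalues which belong to
embeddings over `κ` are all equal. -/
def RelationsOver (κ : K →+* ℂ) (Z : RedAV p ν) (i : Z.X.I) (ι : K →+* (Z.X.factor i).E) : Prop :=
  ∀ e : Emb Z → ℕ, IsRel Z e → (∀ w, w.1 ≠ i → e w = 0) →
    ∀ φ ψ : (Z.X.factor i).E →+* ℂ, φ.comp ι = κ → ψ.comp ι = κ →
      oddE e ⟨i, φ⟩ = oddE e ⟨i, ψ⟩

/-- The automorphisms of `ℂ` that fix the complex embeddings of all other factors are transitive on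
the embeddings of the factor `i` over `κ`. -/
def IndepOver (κ : K →+* ℂ) (Z : RedAV p ν) (i : Z.X.I) (ι : K →+* (Z.X.factor i).E) : Prop :=
  ∀ φ φ' : (Z.X.factor i).E →+* ℂ, φ.comp ι = κ → φ'.comp ι = κ → ∃ σ : ℂ ≃+* ℂ,
    (σ : ℂ →+* ℂ).comp φ = φ' ∧
      ∀ k, k ≠ i → ∀ ψ : (Z.X.factor k).E →+* ℂ, (σ : ℂ →+* ℂ).comp ψ = ψ

/-- The only relations between the Frobenius eigenvalues of the factor `i` are those of the pairs of
complex conjugate eigenvalues. -/
def IsNeat (Z : RedAV p ν) (i : Z.X.I) : Prop :=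
  ∀ e : Emb Z → ℕ, IsRel Z e → (∀ w, w.1 ≠ i → e w = 0) → ∀ w, e w = e (conjE w)

/-- Each complex embedding of the field of the factor `i` is exchanged with its complex conjugate by
an automorphism of `ℂ` that fixes the complex embeddings of all other factors. -/
def IndepConj (Z : RedAV p ν) (i : Z.X.I) : Prop :=
  ∀ φ : (Z.X.factor i).E →+* ℂ, ∃ σ : ℂ ≃+* ℂ,
    (σ : ℂ →+* ℂ).comp φ = ComplexEmbedding.conjugate φ ∧
      ∀ k, k ≠ i → ∀ ψ : (Z.X.factor k).E →+* ℂ, (σ : ℂ →+* ℂ).comp ψ = ψ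

/-- The slopes of the Frobenius eigenvalues of the factor `i` are `(a + c * d φ) / 2`, where `q = p ^ a`,
`c ≠ 0` is a real number and `d` is a function with integral values on the complex embeddings. -/
def HasSlopes (Z : RedAV p ν) (i : Z.X.I) (d : ((Z.X.factor i).E →+* ℂ) → ℤ) : Prop :=
  ∃ c : ℝ, c ≠ 0 ∧ ∀ φ : (Z.X.factor i).E →+* ℂ,
    -Real.logb p ‖ν.symm (φ (Z.π i))‖ = (Z.a + c * d φ) / 2

end Pool.Agent.U124.HQ
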