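import Pool.Agent.N202.QR.Prime
import Pool.Agent.U124.HQ.Defs
import Pool.Agent.H977R3.CM.TowerCount

/-!
# Irreducible permutation representations on the embeddings of a field

Let `X` be the set of the complex embeddings of a number field `E` which extend an embedding `κ` of
a subfield `K`. `IsSimple κ ι`: the representation of the group of the automorphisms of `ℂ` over `K`
on the space of the rational functions on `X` is the sum of the constant functions and of an
irreducible representation. This is so if the group is doubly transitive on `X`, and if the number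
of the elements of `X`, the degree of `E` over `K`, is a prime number.
-/

set_option autoImplicit false

namespace Pool.Agent.U124.HQ

open NumberField Module

section perm

variable {X : Type} [Fintype X] [DecidableEq X]

omit [Fintype X] [DecidableEq X] in
theorem inv_app (τ : Equiv.Perm X) (a : X) : τ⁻¹ (τ a) = a := τ.symm_apply_apply a

omit [Fintype X] [DecidableEq X] in
theorem app_inv (τ : Equiv.Perm X) (a : X) : τ (τ⁻¹ a) = a := τ.apply_symm_apply a

/-- The space of the functions with sum zero is generated by the differences. -/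
theorem sum_zero_mem (W : Submodule ℚ (X → ℚ)) (x₀ : X)
    (h : ∀ u : X, (Pi.single u 1 - Pi.single x₀ 1 : X → ℚ) ∈ W) (g : X → ℚ)
    (hg : ∑ x, g x = 0) : g ∈ W := by
  have h1 : g = ∑ u, g u • (Pi.single u 1 - Pi.single x₀ 1 : X → ℚ) := by
    have h2 : ∀ u, g u • (Pi.single u 1 - Pi.single x₀ 1 : X → ℚ) =
        g u • (Pi.single u 1 : X → ℚ) - g u • (Pi.single x₀ 1 : X → ℚ) := fun u => smul_sub _ _ _
    rw [Finset.sum_congr rfl fun u _ => h2 u, Finset.sum_sub_distrib, ← Finset.sum_smul, hg,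
      zero_smul, sub_zero]
    funext z
    rw [Finset.sum_apply, Finset.sum_eq_single z]
    · simp
    · intro b _ hb
      simp [hb.symm]
    · intro h
      exact absurd (Finset.mem_univ z) h
  rw [h1]
  exact W.sum_mem fun u _ => W.smul_mem _ (h u)

/-- Doubly transitive groups. -/
theorem two_aux (P : Subgroup (Equiv.Perm X))
    (h2 : ∀ x y x' y' : X, x ≠ y → x' ≠ y' → ∃ π ∈ P, π x = x' ∧ π y = y')
    (W : Submodule ℚ (X → ℚ)) (hW : ∀ π ∈ P, ∀ f ∈ W, (fun z => f (π z)) ∈ W) (f : X → ℚ)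
    (hf : f ∈ W) (x y : X) (hxy : f x ≠ f y) (g : X → ℚ) (hg : ∑ z, g z = 0) : g ∈ W := by
  classical
  obtain ⟨x₀, hx₀⟩ : ∃ x₀, (Fintype.card X : ℚ) * f x₀ ≠ ∑ z, f z := by
    by_contra hne
    push Not at hne
    have _ : Nonempty X := ⟨x⟩
    have hc : (Fintype.card X : ℚ) ≠ 0 := Nat.cast_ne_zero.2 Fintype.card_ne_zero
    exact hxy (mul_left_cancel₀ hc ((hne x).trans (hne y).symm))
  obtain ⟨y₀, hy₀⟩ : ∃ y₀, y₀ ≠ x₀ := by
    by_contra hne
    push Not at hne
    exact hxy (by rw [hne x, hne y])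
  let S : Finset (Equiv.Perm X) := Finset.univ.filter fun π => π ∈ P ∧ π x₀ = x₀
  have hS : ∀ π, π ∈ S ↔ π ∈ P ∧ π x₀ = x₀ := fun π => by
    simp only [S, Finset.mem_filter, Finset.mem_univ, true_and]
  let f' : X → ℚ := ∑ π ∈ S, fun z => f (π z)
  have hf' : f' ∈ W := W.sum_mem fun π hπ => hW π ((hS π).1 hπ).1 f hf
  have happ : ∀ z, f' z = ∑ π ∈ S, f (π z) := fun z => Finset.sum_apply z S _
  have hx : f' x₀ = (S.card : ℚ) * f x₀ := by
    rw [happ, Finset.sum_congr rfl fun π hπ => by rw [((hS π).1 hπ).2], Finset.sum_const,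
      nsmul_eq_mul]
  have hcon : ∀ z z', z ≠ x₀ → z' ≠ x₀ → f' z = f' z' := by
    intro z z' hz hz'
    obtain ⟨τ, hτ, h3, h4⟩ := h2 x₀ z x₀ z' hz.symm hz'.symm
    rw [happ, happ, ← h4]
    symm
    refine Finset.sum_nbij' (fun π => π * τ) (fun π => π * τ⁻¹) ?_ ?_ ?_ ?_ ?_
    · intro π hπ
      rw [hS] at hπ ⊢
      exact ⟨P.mul_mem hπ.1 hτ, by rw [Equiv.Perm.mul_apply, h3, hπ.2]⟩
    · intro π hπ
      rw [hS] at hπ ⊢
      refine ⟨P.mul_mem hπ.1 (P.inv_mem hτ), ?_⟩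
      rw [Equiv.Perm.mul_apply]
      have h5 : τ⁻¹ x₀ = x₀ := by rw [Equiv.Perm.inv_eq_iff_eq, h3]
      rw [h5, hπ.2]
    · intro π _
      exact mul_inv_cancel_right _ _
    · intro π _
      exact inv_mul_cancel_right _ _
    · intro π _
      rfl
  have hsum : ∑ z, f' z = (S.card : ℚ) * ∑ z, f z := by
    rw [Finset.sum_congr rfl fun z _ => happ z, Finset.sum_comm]
    have h3 : ∀ π ∈ S, ∑ z, f (π z) = ∑ z, f z := fun π _ => Equiv.sum_comp π f
    rw [Finset.sum_congr rfl h3, Finset.sum_const, nsmul_eq_mul]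
  have hS0 : (S.card : ℚ) ≠ 0 := by
    rw [Nat.cast_ne_zero]
    exact Finset.card_ne_zero_of_mem ((hS 1).2 ⟨P.one_mem, rfl⟩)
  have hαβ : f' x₀ ≠ f' y₀ := by
    intro h
    apply hx₀
    have h3 : ∀ z, f' z = f' x₀ := by
      intro z
      by_cases hz : z = x₀
      · rw [hz]
      · rw [h]
        exact hcon z y₀ hz hy₀
    rw [Finset.sum_congr rfl fun z _ => h3 z, Finset.sum_const, Finset.card_univ, nsmul_eq_mul,
      hx] at hsum
    apply mul_left_cancel₀ hS0
    rw [← hsum]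
    ring
  have hdiff : ∀ u v : X, u ≠ v → (Pi.single u 1 - Pi.single v 1 : X → ℚ) ∈ W := by
    intro u v huv
    obtain ⟨τ, hτ, h3, h4⟩ := h2 u v x₀ y₀ huv hy₀.symm
    obtain ⟨ρ, hρ, h5, h6⟩ := h2 v u x₀ y₀ huv.symm hy₀.symm
    have h7 := W.sub_mem (hW τ hτ f' hf') (hW ρ hρ f' hf')
    have h8 := W.smul_mem (f' x₀ - f' y₀)⁻¹ h7
    have hne : f' x₀ - f' y₀ ≠ 0 := sub_ne_zero.2 hαβ
    convert h8 using 1
    funext z
    have e1 : f' (τ z) = f' y₀ + (f' x₀ - f' y₀) * (Pi.single u 1 : X → ℚ) z := by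
      by_cases hz : z = u
      · subst hz
        rw [h3, Pi.single_eq_same]
        ring
      · rw [Pi.single_eq_of_ne hz, mul_zero, add_zero]
        refine hcon _ _ (fun h => hz (τ.injective (h.trans h3.symm))) hy₀
    have e2 : f' (ρ z) = f' y₀ + (f' x₀ - f' y₀) * (Pi.single v 1 : X → ℚ) z := by
      by_cases hz : z = v
      · subst hz
        rw [h5, Pi.single_eq_same]
        ring
      · rw [Pi.single_eq_of_ne hz, mul_zero, add_zero]
        refine hcon _ _ (fun h => hz (ρ.injective (h.trans h5.symm))) hy₀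
    simp only [Pi.sub_apply, Pi.smul_apply, smul_eq_mul]
    rw [e1, e2]
    field_simp
    ring
  refine sum_zero_mem W x₀ (fun u => ?_) g hg
  by_cases hu : u = x₀
  · rw [hu, sub_self]
    exact W.zero_mem
  · exact hdiff u x₀ hu

/-- Transitive groups of prime degree. -/
theorem prime_aux (P : Subgroup (Equiv.Perm X)) (hX : (Fintype.card X).Prime)
    (h1 : ∀ x y : X, ∃ π ∈ P, π x = y)
    (W : Submodule ℚ (X → ℚ)) (hW : ∀ π ∈ P, ∀ f ∈ W, (fun z => f (π z)) ∈ W) (f : X → ℚ)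
    (hf : f ∈ W) (x y : X) (hxy : f x ≠ f y) (g : X → ℚ) (hg : ∑ z, g z = 0) : g ∈ W := by
  classical
  have _ : Fact (Fintype.card X).Prime := ⟨hX⟩
  have htr : MulAction.IsPretransitive P X := by
    refine ⟨fun a b => ?_⟩
    obtain ⟨π, hπ, h⟩ := h1 a b
    exact ⟨⟨π, hπ⟩, h⟩
  have hdvd : Fintype.card X ∣ Nat.card P := by
    have h2 := MulAction.card_orbit_mul_card_stabilizer_eq_card_group P x
    have h3 : Fintype.card (MulAction.orbit P x) = Fintype.card X := by
      rw [← Nat.card_eq_fintype_card, MulAction.orbit_eq_univ, Nat.card_univ,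
        Nat.card_eq_fintype_card]
    rw [← h3, Nat.card_eq_fintype_card, ← h2]
    exact dvd_mul_right _ _
  obtain ⟨τ, hτ⟩ := exists_prime_orderOf_dvd_card' (Fintype.card X) hdvd
  have hord : orderOf (τ : Equiv.Perm X) = Fintype.card X := by
    rw [Subgroup.orderOf_coe, hτ]
  have hcyc : (τ : Equiv.Perm X).IsCycle := Equiv.Perm.isCycle_of_prime_order'' hX hord
  have hsupp : (τ : Equiv.Perm X).support = Finset.univ := by
    rw [← Finset.card_eq_iff_eq_univ, ← hcyc.orderOf, hord]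
  have hsurj : ∀ z, ∃ i < Fintype.card X, ((τ : Equiv.Perm X) ^ i) x = z := by
    intro z
    have h2 : (τ : Equiv.Perm X).SameCycle x z := hcyc.sameCycle
      (Equiv.Perm.mem_support.1 (by rw [hsupp]; exact Finset.mem_univ _))
      (Equiv.Perm.mem_support.1 (by rw [hsupp]; exact Finset.mem_univ _))
    obtain ⟨i, hi, h3⟩ := h2.exists_pow_eq_of_mem_support
      (by rw [hsupp]; exact Finset.mem_univ _)
    exact ⟨i, lt_of_lt_of_le hi (Finset.card_le_univ _), h3⟩
  have himg : (Finset.range (Fintype.card X)).image (fun i => ((τ : Equiv.Perm X) ^ i) x) =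
      Finset.univ := by
    refine Finset.eq_univ_iff_forall.2 fun z => ?_
    obtain ⟨i, hi, h3⟩ := hsurj z
    exact Finset.mem_image.2 ⟨i, Finset.mem_range.2 hi, h3⟩
  have hinj : Set.InjOn (fun i => ((τ : Equiv.Perm X) ^ i) x)
      (Finset.range (Fintype.card X) : Set ℕ) := by
    rw [← Finset.card_image_iff, himg, Finset.card_univ, Finset.card_range]
  let R₀ : (X → ℚ) →ₗ[ℚ] (X → ℚ) :=
    LinearMap.funLeft ℚ ℚ (((τ : Equiv.Perm X)⁻¹ : Equiv.Perm X) : X → X)
  have hR₀ : W ≤ W.comap R₀ := fun b hb => hW _ (P.inv_mem τ.2) b hb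
  let R : ((X → ℚ) ⧸ W) →ₗ[ℚ] ((X → ℚ) ⧸ W) := W.mapQ W R₀ hR₀
  have hpow : ∀ i : ℕ, (R ^ i) (W.mkQ (Pi.single x 1)) =
      W.mkQ (Pi.single (((τ : Equiv.Perm X) ^ i) x) 1) := by
    intro i
    induction i with
    | zero => rfl
    | succ i ih =>
      rw [pow_succ', Module.End.mul_apply, ih]
      change W.mkQ (R₀ (Pi.single (((τ : Equiv.Perm X) ^ i) x) 1)) = _
      congr 1
      funext z
      change (Pi.single (((τ : Equiv.Perm X) ^ i) x) 1 : X → ℚ) ((τ : Equiv.Perm X)⁻¹ z) = _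
      rw [pow_succ', Equiv.Perm.mul_apply]
      by_cases hz : z = (τ : Equiv.Perm X) (((τ : Equiv.Perm X) ^ i) x)
      · subst hz
        rw [inv_app, Pi.single_eq_same, Pi.single_eq_same]
      · rw [Pi.single_eq_of_ne hz, Pi.single_eq_of_ne]
        intro h
        exact hz (by rw [← h, app_inv])
  have hfix : R (W.mkQ (Pi.single x 1)) = W.mkQ (Pi.single x 1) := by
    by_contra hne
    have h2 : (R ^ Fintype.card X) (W.mkQ (Pi.single x 1)) = W.mkQ (Pi.single x 1) := by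
      rw [hpow, ← hord, pow_orderOf_eq_one, Equiv.Perm.one_apply]
    have h3 : ∑ i ∈ Finset.range (Fintype.card X), f (((τ : Equiv.Perm X) ^ i) x) •
        (R ^ i) (W.mkQ (Pi.single x 1)) = 0 := by
      rw [Finset.sum_congr rfl fun i _ => by rw [hpow i, ← map_smul], ← map_sum]
      have h4 : ∑ i ∈ Finset.range (Fintype.card X), f (((τ : Equiv.Perm X) ^ i) x) •
          (Pi.single (((τ : Equiv.Perm X) ^ i) x) 1 : X → ℚ) = f := by
        rw [← Finset.sum_image (s := Finset.range (Fintype.card X))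
          (g := fun i => ((τ : Equiv.Perm X) ^ i) x)
          (f := fun z => f z • (Pi.single z 1 : X → ℚ)) hinj, himg]
        funext z
        rw [Finset.sum_apply, Finset.sum_eq_single z]
        · simp
        · intro b _ hb
          simp [hb.symm]
        · intro h
          exact absurd (Finset.mem_univ z) h
      rw [h4]
      exact (Submodule.Quotient.mk_eq_zero W).2 hf
    have h5 := Pool.Agent.N202.QR.const_of_rel R hX h2 hne
      (fun i => f (((τ : Equiv.Perm X) ^ i) x)) h3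
    have h6 : ∀ z, f z = f x := by
      intro z
      obtain ⟨i, hi, rfl⟩ := hsurj z
      exact h5 i hi
    exact hxy (h6 y).symm
  refine sum_zero_mem W x (fun u => ?_) g hg
  obtain ⟨i, hi, rfl⟩ := hsurj u
  have h7 : ∀ k : ℕ, (R ^ k) (W.mkQ (Pi.single x 1)) = W.mkQ (Pi.single x 1) := by
    intro k
    induction k with
    | zero => rfl
    | succ k ih => rw [pow_succ', Module.End.mul_apply, ih, hfix]
  have h8 := (hpow i).symm.trans (h7 i)
  exact (Submodule.Quotient.eq W).1 h8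

end perm

section fields

variable {K E : Type} [Field K] [Field E]

/-- The action of the automorphisms of `ℂ` over `K`. -/
def actA (κ : K →+* ℂ) (ι : K →+* E) (σ : ℂ ≃+* ℂ) (hσ : ∀ x, σ (κ x) = κ x)
    (φ : Above κ ι) : Above κ ι :=
  ⟨(σ : ℂ →+* ℂ).comp φ.1, by
    ext x
    change σ (φ.1 (ι x)) = κ x
    have h : φ.1 (ι x) = κ x := RingHom.congr_fun φ.2 x
    rw [h, hσ]⟩

/-- The representation of the group of the automorphisms of `ℂ` over `K` on the space of the
rational functions on the embeddings of `E` over `κ` is the sum of the constant functions and of an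
irreducible representation: each stable subspace with a nonconstant function contains all functions
with the sum zero. -/
def IsSimple (κ : K →+* ℂ) (ι : K →+* E) : Prop :=
  ∀ W : Submodule ℚ (Above κ ι → ℚ),
    (∀ (σ : ℂ ≃+* ℂ) (hσ : ∀ x, σ (κ x) = κ x), ∀ f ∈ W, (fun φ => f (actA κ ι σ hσ φ)) ∈ W) →
    (∃ f ∈ W, ∃ φ ψ, f φ ≠ f ψ) → ∀ f : Above κ ι → ℚ, ∑ᶠ φ, f φ = 0 → f ∈ W

theorem fix_of_comp {κ : K →+* ℂ} {ι : K →+* E} {σ : ℂ ≃+* ℂ} {φ ψ : Above κ ι}
    (h : (σ : ℂ →+* ℂ).comp φ.1 = ψ.1) (x : K) : σ (κ x) = κ x := by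
  have h1 : φ.1 (ι x) = κ x := RingHom.congr_fun φ.2 x
  have h2 : ψ.1 (ι x) = κ x := RingHom.congr_fun ψ.2 x
  have h3 : σ (φ.1 (ι x)) = ψ.1 (ι x) := RingHom.congr_fun h (ι x)
  rw [h1, h2] at h3
  exact h3

/-- The permutation of the embeddings over `κ`. -/
def permA (κ : K →+* ℂ) (ι : K →+* E) (σ : ℂ ≃+* ℂ) (hσ : ∀ x, σ (κ x) = κ x) :
    Equiv.Perm (Above κ ι) where
  toFun := actA κ ι σ hσ
  invFun := actA κ ι σ.symm fun x => by rw [RingEquiv.symm_apply_eq, hσ]
  left_inv φ := by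
    refine Subtype.ext ?_
    ext x
    exact σ.symm_apply_apply _
  right_inv φ := by
    refine Subtype.ext ?_
    ext x
    exact σ.apply_symm_apply _

/-- The group of the permutations of the embeddings over `κ`. -/
def grpA (κ : K →+* ℂ) (ι : K →+* E) : Subgroup (Equiv.Perm (Above κ ι)) where
  carrier := {π | ∃ (σ : ℂ ≃+* ℂ) (hσ : ∀ x, σ (κ x) = κ x), π = permA κ ι σ hσ}
  one_mem' := ⟨RingEquiv.refl ℂ, fun _ => rfl, rfl⟩
  mul_mem' := by
    rintro _ _ ⟨σ, hσ, rfl⟩ ⟨τ, hτ, rfl⟩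
    exact ⟨τ.trans σ, fun x => by rw [RingEquiv.trans_apply, hτ, hσ], rfl⟩
  inv_mem' := by
    rintro _ ⟨σ, hσ, rfl⟩
    exact ⟨σ.symm, fun x => by rw [RingEquiv.symm_apply_eq, hσ], rfl⟩

theorem exists_grpA {κ : K →+* ℂ} {ι : K →+* E} {σ : ℂ ≃+* ℂ} {φ ψ : Above κ ι}
    (h : (σ : ℂ →+* ℂ).comp φ.1 = ψ.1) :
    ∃ (hσ : ∀ x, σ (κ x) = κ x), permA κ ι σ hσ φ = ψ :=
  ⟨fix_of_comp h, Subtype.ext h⟩

/-- Doubly transitive fields. -/
theorem isSimple_of_two [NumberField E] (κ : K →+* ℂ) (ι : K →+* E)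
    (h : ∀ φ ψ φ' ψ' : E →+* ℂ, φ.comp ι = κ → ψ.comp ι = κ → φ'.comp ι = κ → ψ'.comp ι = κ →
      φ ≠ ψ → φ' ≠ ψ' → ∃ σ : ℂ ≃+* ℂ,
      (σ : ℂ →+* ℂ).comp φ = φ' ∧ (σ : ℂ →+* ℂ).comp ψ = ψ') : IsSimple κ ι := by
  classical
  rintro W hW ⟨f, hf, φ, ψ, hne⟩ g hg
  rw [finsum_eq_sum_of_fintype] at hg
  refine two_aux (grpA κ ι) ?_ W ?_ f hf φ ψ hne g hg
  · intro x y x' y' hxy hxy'
    obtain ⟨σ, h1, h2⟩ := h x.1 y.1 x'.1 y'.1 x.2 y.2 x'.2 y'.2 (fun h => hxy (Subtype.ext h))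
      fun h => hxy' (Subtype.ext h)
    obtain ⟨hσ, h3⟩ := exists_grpA (φ := x) (ψ := x') h1
    exact ⟨permA κ ι σ hσ, ⟨σ, hσ, rfl⟩, h3, Subtype.ext h2⟩
  · rintro _ ⟨σ, hσ, rfl⟩ b hb
    exact hW σ hσ b hb

/-- Extensions of prime degree. -/
theorem isSimple_of_prime [NumberField K] [IsCMField K] [NumberField E] [IsCMField E]
    (κ : K →+* ℂ) (ι : K →+* E) {g : ℕ} (hg : g.Prime)
    (hdeg : finrank ℚ E = finrank ℚ K * g) : IsSimple κ ι := by
  classical
  rintro W hW ⟨f, hf, φ, ψ, hne⟩ b hb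
  rw [finsum_eq_sum_of_fintype] at hb
  let _ : Algebra K E := ι.toAlgebra
  have hcard : Fintype.card (Above κ ι) = g := by
    rw [Fintype.card_subtype]
    have h1 := Pool.Agent.H977R3.CM.fibre_card (E₀ := K) (E := E) κ
    have h2 : finrank K E = g := by
      have h3 := finrank_mul_finrank ℚ K E
      rw [hdeg] at h3
      exact Nat.eq_of_mul_eq_mul_left finrank_pos h3
    rw [h2] at h1
    exact h1
  refine prime_aux (grpA κ ι) (by rw [hcard]; exact hg) ?_ W ?_ f hf φ ψ hne b hb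
  · intro x y
    obtain ⟨σ, hσ⟩ := Pool.Agent.H977R3.CM.exists_aut_emb x.1 y.1
    obtain ⟨h1, h2⟩ := exists_grpA (φ := x) (ψ := y) hσ
    exact ⟨_, ⟨σ, h1, rfl⟩, h2⟩
  · rintro _ ⟨σ, hσ, rfl⟩ c hc
    exact hW σ hσ c hc

end fields

end Pool.Agent.U124.HQ
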