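import Pool.Agent.U124.HQ.Rel
import Pool.Agent.U124.HQ.Irr
import Pool.Agent.N202.QR.RankOne
import Pool.Agent.Q29.OS.Tower

/-!
# Relations between the Frobenius eigenvalues of products: independent factors
-/

set_option autoImplicit false
set_option linter.unusedSectionVars false

namespace Pool.Agent.U124.HQ

open NumberField Module Pool.Agent.W495.TA Pool.Agent.TH117.PO Pool.Agent.TH117.BL
  Pool.Agent.N202.QR

noncomputable section

section fields

variable {K E : Type} [Field K] [NumberField K] [Field E] [NumberField E]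

/-- An element of `E` on which the embeddings over `κ` agree belongs to `K`. -/
theorem mem_range_of_agree (κ : K →+* ℂ) (ι : K →+* E) (t : E)
    (h : ∀ φ ψ : E →+* ℂ, φ.comp ι = κ → ψ.comp ι = κ → φ t = ψ t) : t ∈ Set.range ι := by
  classical
  let _ : Algebra K E := ι.toAlgebra
  let _ : Algebra K ℂ := κ.toAlgebra
  have _ : IsScalarTower ℚ K E := inferInstance
  have _ : FiniteDimensional K E := Module.Finite.of_restrictScalars_finite ℚ K E
  have h1 := Algebra.IsAlgebraic.range_eval_eq_rootSet_minpoly (F := K) (K := E) ℂ t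
  have h2 : Fintype.card ((minpoly K t).rootSet ℂ) ≤ 1 := by
    rw [Fintype.card_le_one_iff_subsingleton]
    refine ⟨fun a b => Subtype.ext ?_⟩
    have ha : (a : ℂ) ∈ Set.range fun ψ : E →ₐ[K] ℂ => ψ t := by
      rw [h1]
      exact a.2
    have hb : (b : ℂ) ∈ Set.range fun ψ : E →ₐ[K] ℂ => ψ t := by
      rw [h1]
      exact b.2
    obtain ⟨ψ, hψ⟩ := ha
    obtain ⟨ψ', hψ'⟩ := hb
    rw [← hψ, ← hψ']
    refine h ψ.toRingHom ψ'.toRingHom ?_ ?_
    · ext x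
      exact ψ.commutes x
    · ext x
      exact ψ'.commutes x
  have hint : IsIntegral K t := Algebra.IsIntegral.isIntegral t
  rw [Polynomial.card_rootSet_eq_natDegree (minpoly.irreducible hint).separable
    (IsAlgClosed.splits _)] at h2
  have h3 := minpoly.natDegree_pos hint
  have h4 : (minpoly K t).natDegree = 1 := by omega
  exact minpoly.mem_range_of_degree_eq_one K t
    ((Polynomial.degree_eq_iff_natDegree_eq_of_pos one_pos).2 h4)

/-- If no power of `t` belongs to `K` then two of the conjugates over `K` have no common powers. -/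
theorem exists_pair (κ : K →+* ℂ) (ι : K →+* E) (t : E)
    (h : ∀ m : ℕ, 0 < m → t ^ m ∉ Set.range ι) :
    ∃ x y : Above κ ι, ∀ m : ℕ, 0 < m → x.1 t ^ m ≠ y.1 t ^ m := by
  classical
  by_contra hne
  push Not at hne
  choose m hm hxy using hne
  refine h (∏ x, ∏ y, m x y) (Finset.prod_pos fun x _ => Finset.prod_pos fun y _ => hm x y) ?_
  refine mem_range_of_agree κ ι _ fun φ ψ hφ hψ => ?_
  have h1 : m ⟨φ, hφ⟩ ⟨ψ, hψ⟩ ∣ ∏ x, ∏ y, m x y :=
    (Finset.dvd_prod_of_mem (fun y => m ⟨φ, hφ⟩ y) (Finset.mem_univ _)).trans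
      (Finset.dvd_prod_of_mem (fun x => ∏ y, m x y) (Finset.mem_univ (⟨φ, hφ⟩ : Above κ ι)))
  obtain ⟨c, hc⟩ := h1
  rw [map_pow, map_pow, hc, pow_mul, pow_mul, hxy ⟨φ, hφ⟩ ⟨ψ, hψ⟩]

end fields

variable {p : ℕ} [Fact p.Prime] {ν : PadicAlgCl p ≃+* ℂ} {Z : RedAV p ν}
  {K : Type} [Field K] [NumberField K] [IsCMField K]

/-- The function that is one at `w` and zero elsewhere. -/
def dl (u w : Emb Z) : ℤ := by
  classical
  exact if w = u then 1 else 0

theorem dl_self (u : Emb Z) : dl u u = 1 := if_pos rfl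

theorem dl_ne {u w : Emb Z} (h : w ≠ u) : dl u w = 0 := if_neg h

theorem val_dl (u : Emb Z) : val Z (dl u) = un Z u := by
  classical
  unfold val
  rw [Finset.prod_eq_single u]
  · rw [dl_self, zpow_one]
  · intro w _ hw
    rw [dl_ne hw, zpow_zero]
  · intro h
    exact absurd (Finset.mem_univ u) h

theorem conj_ne_K (κ : K →+* ℂ) : ComplexEmbedding.conjugate κ ≠ κ :=
  Pool.Agent.Q29.OS.conj_ne' κ

theorem conj_comp {E : Type} [Field E] (φ : E →+* ℂ) (ι : K →+* E) :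
    (ComplexEmbedding.conjugate φ).comp ι = ComplexEmbedding.conjugate (φ.comp ι) := rfl

theorem cc_emb {E : Type} [Field E] (φ : E →+* ℂ) :
    ComplexEmbedding.conjugate (ComplexEmbedding.conjugate φ) = φ := star_star φ

/-- If the difference of two eigenvalues is a relation then they have a common power. -/
theorem pow_eq_of_dl {u v : Emb Z} (h : (dl u - dl v : Emb Z → ℤ) ∈ RelZ Z) :
    ∃ m : ℕ, 0 < m ∧ eig Z u ^ m = eig Z v ^ m := by
  rw [mem_RelZ, sub_eq_add_neg, val_add, val_neg, val_dl, val_dl, isOfFinOrder_iff_pow_eq_one] at h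
  obtain ⟨n, hn, h1⟩ := h
  refine ⟨2 * n, by omega, ?_⟩
  have h2 : un Z u ^ n = un Z v ^ n := by
    rw [mul_pow, inv_pow, mul_inv_eq_one] at h1
    exact h1
  have h3 := congrArg (fun z : ℂˣ => (z : ℂ)) h2
  change ((un Z u ^ n : ℂˣ) : ℂ) = ((un Z v ^ n : ℂˣ) : ℂ) at h3
  rw [Units.val_pow_eq_pow_val, Units.val_pow_eq_pow_val] at h3
  change (eig Z u ^ 2 / (p : ℂ) ^ Z.a) ^ n = (eig Z v ^ 2 / (p : ℂ) ^ Z.a) ^ n at h3
  rw [div_pow, div_pow, div_left_inj' (pow_ne_zero _ (q_ne Z))] at h3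
  rw [pow_mul, pow_mul]
  exact h3

/-- The space of the functions on the embeddings over `κ` that are proportional to antisymmetric
relations of the factor `i`. -/
def WS (κ : K →+* ℂ) (Z : RedAV p ν) (i : Z.X.I) (ι : K →+* (Z.X.factor i).E) :
    Submodule ℚ (Above κ ι → ℚ) where
  carrier := {f | ∃ n : ℕ, n ≠ 0 ∧ ∃ b ∈ RelZ Z, (∀ w, w.1 ≠ i → b w = 0) ∧
    (∀ w, b (conjE w) = -b w) ∧ ∀ x : Above κ ι, (n : ℚ) * f x = b ⟨i, x.1⟩}
  zero_mem' := ⟨1, one_ne_zero, 0, (RelZ Z).zero_mem, fun _ _ => rfl, fun _ => neg_zero.symm,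
    fun _ => by simp⟩
  add_mem' := by
    rintro f f' ⟨n, hn, b, hb, h1, h2, h3⟩ ⟨n', hn', b', hb', h1', h2', h3'⟩
    refine ⟨n * n', mul_ne_zero hn hn', n' • b + n • b',
      (RelZ Z).add_mem ((RelZ Z).nsmul_mem hb _) ((RelZ Z).nsmul_mem hb' _), ?_, ?_, ?_⟩
    · intro w hw
      simp [h1 w hw, h1' w hw]
    · intro w
      change n' • b (conjE w) + n • b' (conjE w) = -(n' • b w + n • b' w)
      rw [h2, h2', nsmul_eq_mul, nsmul_eq_mul, nsmul_eq_mul, nsmul_eq_mul]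
      ring
    · intro x
      have e1 := h3 x
      have e2 := h3' x
      change ((n * n' : ℕ) : ℚ) * (f x + f' x) =
        ((n' • b ⟨i, x.1⟩ + n • b' ⟨i, x.1⟩ : ℤ) : ℚ)
      rw [nsmul_eq_mul, nsmul_eq_mul]
      push_cast
      rw [← e1, ← e2]
      ring
  smul_mem' := by
    rintro c f ⟨n, hn, b, hb, h1, h2, h3⟩
    refine ⟨n * c.den, mul_ne_zero hn c.den_ne_zero, c.num • b, (RelZ Z).zsmul_mem hb _, ?_, ?_,
      ?_⟩
    · intro w hw
      simp [h1 w hw]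
    · intro w
      simp only [Pi.smul_apply, h2, smul_eq_mul]
      ring
    · intro x
      have e1 := h3 x
      simp only [Pi.smul_apply, smul_eq_mul]
      push_cast
      rw [← e1]
      have e2 : (c.den : ℚ) * c = c.num := by
        rw [mul_comm]
        exact Rat.mul_den_eq_num c
      rw [← e2]
      ring

theorem WS_stable (κ : K →+* ℂ) (i : Z.X.I) (ι : K →+* (Z.X.factor i).E) (σ : ℂ ≃+* ℂ)
    (hσ : ∀ x, σ (κ x) = κ x) (f : Above κ ι → ℚ) (hf : f ∈ WS κ Z i ι) :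
    (fun φ => f (actA κ ι σ hσ φ)) ∈ WS κ Z i ι := by
  obtain ⟨n, hn, b, hb, h1, h2, h3⟩ := hf
  refine ⟨n, hn, fun w => b (aE Z σ w), act_mem hb σ, fun w hw => h1 _ hw, fun w => ?_,
    fun x => h3 (actA κ ι σ hσ x)⟩
  have h4 : aE Z σ (conjE w) = conjE (aE Z σ w) := by
    refine Sigma.ext rfl (heq_of_eq ?_)
    exact Pool.Agent.Q29.OS.comp_conj σ w.2
  change b (aE Z σ (conjE w)) = _
  rw [h4, h2]

/-- **One factor.** If the representation on the functions on the embeddings over `κ` has only one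
nonconstant component and no power of the Frobenius endomorphism belongs to `K`, then all
relations are defined over `K`. -/
theorem relationsOver_of_simple (hK : finrank ℚ K = 2) (κ : K →+* ℂ) (i : Z.X.I) (ι : K →+* (Z.X.factor i).E)
    (hs : IsSimple κ ι)
    (hπ : Function.Surjective ι ∨ ∀ m : ℕ, 0 < m → Z.π i ^ m ∉ Set.range ι) :
    RelationsOver κ Z i ι := by
  classical
  intro e he hsupp φ ψ hφ hψ
  rcases hπ with hsur | hπ
  · have h1 : φ = ψ := by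
      ext x
      obtain ⟨y, rfl⟩ := hsur x
      exact (RingHom.congr_fun hφ y).trans (RingHom.congr_fun hψ y).symm
    rw [h1]
  by_contra hne
  obtain ⟨x, y, hxy⟩ := exists_pair κ ι (Z.π i) hπ
  have hxy' : x ≠ y := by
    rintro rfl
    exact hxy 1 one_pos rfl
  have hmem := hs (WS κ Z i ι) (fun σ hσ f hf => WS_stable κ i ι σ hσ f hf)
    ⟨fun z => (oddE e ⟨i, z.1⟩ : ℚ), ⟨1, one_ne_zero, oddE e, oddE_mem he, fun w hw => ?_,
      oddE_conj e, fun z => by rw [Nat.cast_one, one_mul]⟩, ⟨φ, hφ⟩, ⟨ψ, hψ⟩, fun h => hne ?_⟩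
    (Pi.single x 1 - Pi.single y 1) ?_
  rotate_left
  · unfold oddE
    rw [hsupp w hw, hsupp (conjE w) hw]
    rfl
  · have h' : (oddE e ⟨i, φ⟩ : ℚ) = (oddE e ⟨i, ψ⟩ : ℚ) := h
    exact_mod_cast h'
  · rw [finsum_eq_sum_of_fintype]
    simp
  obtain ⟨n, hn, b, hb, h1, h2, h3⟩ := hmem
  let u : Emb Z := ⟨i, x.1⟩
  let v : Emb Z := ⟨i, y.1⟩
  let c : Emb Z → ℤ := fun w => dl u w - dl v w - (dl u (conjE w) - dl v (conjE w))
  have hover : ∀ (z : Above κ ι) (θ : (Z.X.factor i).E →+* ℂ), θ.comp ι = κ →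
      dl (⟨i, z.1⟩ : Emb Z) (conjE ⟨i, θ⟩) = 0 := by
    intro z θ hθ
    refine dl_ne fun h => ?_
    have h4 : ComplexEmbedding.conjugate θ = z.1 := eq_of_heq (Sigma.mk.inj_iff.1 h).2
    have h5 : (ComplexEmbedding.conjugate θ).comp ι = κ := by rw [h4, z.2]
    rw [conj_comp, hθ] at h5
    exact conj_ne_K κ h5
  have hdl : ∀ (z : Above κ ι) (θ : Above κ ι),
      (dl (⟨i, z.1⟩ : Emb Z) ⟨i, θ.1⟩ : ℚ) = (Pi.single z 1 : Above κ ι → ℚ) θ := by
    intro z θ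
    by_cases h : θ = z
    · rw [h, dl_self, Pi.single_eq_same]
      norm_num
    · rw [Pi.single_eq_of_ne h, dl_ne fun h' => h (Subtype.ext (eq_of_heq (Sigma.mk.inj_iff.1 h').2))]
      norm_num
  have hcκ : ∀ θ : (Z.X.factor i).E →+* ℂ, θ.comp ι = κ → b ⟨i, θ⟩ = n * c ⟨i, θ⟩ := by
    intro θ hθ
    have h4 := h3 ⟨θ, hθ⟩
    have h5 : c ⟨i, θ⟩ = dl u ⟨i, θ⟩ - dl v ⟨i, θ⟩ := by
      change _ - (dl (⟨i, x.1⟩ : Emb Z) (conjE ⟨i, θ⟩) - dl (⟨i, y.1⟩ : Emb Z) (conjE ⟨i, θ⟩)) = _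
      rw [hover x θ hθ, hover y θ hθ, sub_zero, sub_zero]
    have h6 : (b ⟨i, θ⟩ : ℚ) = ((n * c ⟨i, θ⟩ : ℤ) : ℚ) := by
      rw [← h4, h5]
      push_cast
      rw [hdl x ⟨θ, hθ⟩, hdl y ⟨θ, hθ⟩, Pi.sub_apply]
    exact_mod_cast h6
  have hcanti : ∀ w, c (conjE w) = -c w := by
    intro w
    change dl u (conjE w) - dl v (conjE w) - (dl u (conjE (conjE w)) - dl v (conjE (conjE w))) =
      -(dl u w - dl v w - (dl u (conjE w) - dl v (conjE w)))
    rw [conjE_conjE]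
    ring
  have hbc : b = n • c := by
    funext w
    rw [Pi.smul_apply, nsmul_eq_mul]
    obtain ⟨k, θ⟩ := w
    by_cases hk : k = i
    · subst hk
      by_cases hθ : θ.comp ι = κ
      · exact hcκ θ hθ
      · have h8 : (ComplexEmbedding.conjugate θ).comp ι = κ := by
          rcases Pool.Agent.Q29.OS.embedding_quadratic hK κ (θ.comp ι) with h | h
          · exact absurd h hθ
          · rw [conj_comp, h, cc_emb]
        have h9 : b (conjE ⟨k, θ⟩) = n * c (conjE ⟨k, θ⟩) := hcκ _ h8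
        rw [h2, hcanti] at h9
        linarith
    · rw [h1 _ hk]
      have h7 : ∀ z : Above κ ι, ∀ θ' : (Z.X.factor k).E →+* ℂ,
          dl (⟨i, z.1⟩ : Emb Z) ⟨k, θ'⟩ = 0 := fun z θ' =>
        dl_ne fun h => hk (Sigma.mk.inj_iff.1 h).1
      change (0 : ℤ) = n * (dl (⟨i, x.1⟩ : Emb Z) ⟨k, θ⟩ - dl (⟨i, y.1⟩ : Emb Z) ⟨k, θ⟩ -
        (dl (⟨i, x.1⟩ : Emb Z) ⟨k, _⟩ - dl (⟨i, y.1⟩ : Emb Z) ⟨k, _⟩))
      rw [h7, h7, h7, h7]
      ring
  rw [hbc] at hb
  have hcm := sat hn hb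
  have hmem2 : (dl u - dl v : Emb Z → ℤ) ∈ RelZ Z := by
    refine sat (n := 2) two_ne_zero ?_
    have h10 : (2 • (dl u - dl v) : Emb Z → ℤ) =
        c + fun w => dl u w + dl u (conjE w) - dl v w - dl v (conjE w) := by
      funext w
      change 2 • (dl u w - dl v w) = dl u w - dl v w - (dl u (conjE w) - dl v (conjE w)) +
        (dl u w + dl u (conjE w) - dl v w - dl v (conjE w))
      rw [nsmul_eq_mul]
      push_cast
      ring
    rw [h10]
    refine (RelZ Z).add_mem hcm (sym_mem_RelZ fun w => ?_)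
    rw [conjE_conjE]
    ring
  obtain ⟨m, hm, h11⟩ := pow_eq_of_dl hmem2
  exact hxy m hm h11

theorem aE_conjE (σ : ℂ ≃+* ℂ) (w : Emb Z) : aE Z σ (conjE w) = conjE (aE Z σ w) := by
  refine Sigma.ext rfl (heq_of_eq ?_)
  exact Pool.Agent.Q29.OS.comp_conj σ w.2

theorem oddE_toNat {b : Emb Z → ℤ} (hodd : ∀ w, b (conjE w) = -b w) (w : Emb Z) :
    oddE (fun w => (b w).toNat) w = b w := by
  change (((b w).toNat : ℕ) : ℤ) - (((b (conjE w)).toNat : ℕ) : ℤ) = b w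
  rw [hodd]
  omega

/-- The exponents of the eigenvalues of a factor over `K` in a relation. -/
theorem odd_over {κ : K →+* ℂ} {i : Z.X.I} {ι : K →+* (Z.X.factor i).E}
    (hrel : RelationsOver κ Z i ι) (hind : IndepOver κ Z i ι) {e : Emb Z → ℕ} (he : IsRel Z e)
    {φ φ' : (Z.X.factor i).E →+* ℂ} (hφ : φ.comp ι = κ) (hφ' : φ'.comp ι = κ) :
    oddE e ⟨i, φ⟩ = oddE e ⟨i, φ'⟩ := by
  classical
  obtain ⟨h, h1, h2⟩ := hind φ φ' hφ hφ'
  let b : Emb Z → ℤ := (fun w => oddE e (aE Z h w)) - oddE e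
  have hb : b ∈ RelZ Z := (RelZ Z).sub_mem (act_mem (oddE_mem he) h) (oddE_mem he)
  have hodd : ∀ w, b (conjE w) = -b w := by
    intro w
    change oddE e (aE Z h (conjE w)) - oddE e (conjE w) = -(oddE e (aE Z h w) - oddE e w)
    rw [aE_conjE, oddE_conj, oddE_conj]
    ring
  have hsupp : ∀ w, w.1 ≠ i → b w = 0 := by
    rintro ⟨k, ψ⟩ hk
    change oddE e (aE Z h ⟨k, ψ⟩) - oddE e ⟨k, ψ⟩ = 0
    rw [aE_apply, h2 k hk ψ, sub_self]
  have h3 := hrel (fun w => (b w).toNat) (toNat_rel hb hodd)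
    (fun w hw => by rw [hsupp w hw]; rfl)
  have hconst : ∀ x : Above κ ι, b ⟨i, x.1⟩ = b ⟨i, φ⟩ := by
    intro x
    have h4 := h3 x.1 φ x.2 hφ
    rwa [oddE_toNat hodd, oddE_toNat hodd] at h4
  obtain ⟨hκ, h5⟩ := exists_grpA (φ := (⟨φ, hφ⟩ : Above κ ι)) (ψ := ⟨φ', hφ'⟩) h1
  have hsum : ∑ x : Above κ ι, b ⟨i, x.1⟩ = 0 := by
    have h6 : ∀ x : Above κ ι, b ⟨i, x.1⟩ =
        oddE e ⟨i, (permA κ ι h hκ x).1⟩ - oddE e ⟨i, x.1⟩ := fun x => rfl
    rw [Finset.sum_congr rfl fun x _ => h6 x, Finset.sum_sub_distrib,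
      Equiv.sum_comp (permA κ ι h hκ) fun x : Above κ ι => oddE e ⟨i, x.1⟩, sub_self]
  rw [Finset.sum_congr rfl fun x _ => hconst x, Finset.sum_const, Finset.card_univ,
    nsmul_eq_mul] at hsum
  have _ : Nonempty (Above κ ι) := ⟨⟨φ, hφ⟩⟩
  have h7 : b ⟨i, φ⟩ = 0 := by
    rcases mul_eq_zero.1 hsum with h8 | h8
    · exact absurd h8 (Nat.cast_ne_zero.2 Fintype.card_ne_zero)
    · exact h8
  have h9 : b ⟨i, φ⟩ = oddE e ⟨i, φ'⟩ - oddE e ⟨i, φ⟩ := by
    change oddE e (aE Z h ⟨i, φ⟩) - oddE e ⟨i, φ⟩ = _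
    rw [aE_apply]
    change oddE e ⟨i, (h : ℂ →+* ℂ).comp φ⟩ - _ = _
    rw [h1]
  rw [h9] at h7
  exact (sub_eq_zero.1 h7).symm

/-- The exponents of the eigenvalues of a neat factor in a relation. -/
theorem odd_neat {i : Z.X.I} (hneat : IsNeat Z i) (hind : IndepConj Z i) {e : Emb Z → ℕ}
    (he : IsRel Z e) (φ : (Z.X.factor i).E →+* ℂ) : oddE e ⟨i, φ⟩ = 0 := by
  obtain ⟨h, h1, h2⟩ := hind φ
  let b : Emb Z → ℤ := oddE e - fun w => oddE e (aE Z h w)
  have hb : b ∈ RelZ Z := (RelZ Z).sub_mem (oddE_mem he) (act_mem (oddE_mem he) h)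
  have hodd : ∀ w, b (conjE w) = -b w := by
    intro w
    change oddE e (conjE w) - oddE e (aE Z h (conjE w)) = -(oddE e w - oddE e (aE Z h w))
    rw [aE_conjE, oddE_conj, oddE_conj]
    ring
  have hsupp : ∀ w, w.1 ≠ i → b w = 0 := by
    rintro ⟨k, ψ⟩ hk
    change oddE e ⟨k, ψ⟩ - oddE e (aE Z h ⟨k, ψ⟩) = 0
    rw [aE_apply, h2 k hk ψ, sub_self]
  have h3 := hneat (fun w => (b w).toNat) (toNat_rel hb hodd)
    (fun w hw => by rw [hsupp w hw]; rfl) ⟨i, φ⟩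
  have h4 := oddE_toNat hodd (⟨i, φ⟩ : Emb Z)
  change (((b ⟨i, φ⟩).toNat : ℕ) : ℤ) - (((b (conjE ⟨i, φ⟩)).toNat : ℕ) : ℤ) = b ⟨i, φ⟩ at h4
  rw [← h3, sub_self] at h4
  have h5 : b ⟨i, φ⟩ = oddE e ⟨i, φ⟩ - oddE e (conjE ⟨i, φ⟩) := by
    change oddE e ⟨i, φ⟩ - oddE e (aE Z h ⟨i, φ⟩) = _
    rw [aE_apply]
    change _ - oddE e ⟨i, (h : ℂ →+* ℂ).comp φ⟩ = _
    rw [h1]
    rfl
  rw [oddE_conj] at h5
  rw [← h4] at h5
  linarith

/-- A factor is good if it contains `K`, its relations are defined over `K` and it is independent of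
the other factors over `K`, or if it has no relations and is independent of the other factors. -/
def GoodFactor (κ : K →+* ℂ) (Z : RedAV p ν) (i : Z.X.I) : Prop :=
  (∃ ι : K →+* (Z.X.factor i).E, RelationsOver κ Z i ι ∧ IndepOver κ Z i ι) ∨
    (IsNeat Z i ∧ IndepConj Z i)

/-- The odd parts of the relations are invariant under the automorphisms over `K`. -/
theorem odd_invariant (hK : finrank ℚ K = 2) {κ : K →+* ℂ} (hgood : ∀ i, GoodFactor κ Z i)
    {e : Emb Z → ℕ} (he : IsRel Z e) (σ : ℂ ≃+* ℂ) (hσ : ∀ x, σ (κ x) = κ x) (w : Emb Z) :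
    oddE e (aE Z σ w) = oddE e w := by
  obtain ⟨i, φ⟩ := w
  rcases hgood i with ⟨ι, hrel, hind⟩ | ⟨hneat, hind⟩
  · have key : ∀ ψ : (Z.X.factor i).E →+* ℂ, ψ.comp ι = κ →
        oddE e (aE Z σ ⟨i, ψ⟩) = oddE e ⟨i, ψ⟩ := fun ψ hψ =>
      odd_over hrel hind he (actA κ ι σ hσ ⟨ψ, hψ⟩).2 hψ
    rcases Pool.Agent.Q29.OS.embedding_quadratic hK κ (φ.comp ι) with h | h
    · exact key φ h
    · have h1 : (ComplexEmbedding.conjugate φ).comp ι = κ := by
        rw [conj_comp, h, cc_emb]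
      have h2 := key _ h1
      have h3 : (⟨i, ComplexEmbedding.conjugate φ⟩ : Emb Z) = conjE ⟨i, φ⟩ := rfl
      rw [h3, aE_conjE, oddE_conj, oddE_conj] at h2
      linarith
  · rw [aE_apply, odd_neat hneat hind he φ]
    exact odd_neat hneat hind he _

/-- **Products of good factors have quadratic relations.** -/
theorem quad_of_good (hK : finrank ℚ K = 2) {κ : K →+* ℂ} (hgood : ∀ i, GoodFactor κ Z i) :
    ∀ e : Emb Z → ℕ, IsRel Z e → (fun w => (e w : ℤ)) ∈ AddSubgroup.closure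
      {d : Emb Z → ℤ | ∃ n : Emb Z → ℕ, IsRel Z n ∧ (IsElementary Z n ∨ IsInvariant κ Z n) ∧
        ∀ w, d w = n w} := by
  intro e he
  obtain ⟨h1, h2⟩ := split_rel he
  have h3 : (fun w => (e w : ℤ)) = (fun w => (((oddE e w).toNat : ℕ) : ℤ)) +
      fun w => ((min (e w) (e (conjE w)) : ℕ) : ℤ) := funext h2
  rw [h3]
  refine AddSubgroup.add_mem _ (AddSubgroup.subset_closure ⟨_, h1, Or.inr ?_, fun w => rfl⟩)
    (sym_mem _ (fun n h1 h2 => ?_) _ fun w => by rw [conjE_conjE, min_comm])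
  swap
  · exact ⟨n, h1, Or.inl h2, fun w => rfl⟩
  intro τ hτ w
  exact congrArg Int.toNat (odd_invariant hK hgood he τ hτ w)

end

end Pool.Agent.U124.HQ
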