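import Pool.Agent.U124.HQ.Fact
import Pool.Agent.TH170.GS.Rel

/-!
# Factors without relations between the Frobenius eigenvalues
-/

set_option autoImplicit false
set_option linter.unusedSectionVars false

namespace Pool.Agent.U124.HQ

open NumberField Module Pool.Agent.W495.TA Pool.Agent.TH117.PO Pool.Agent.TH117.BL
  Pool.Agent.N202.QR

noncomputable section

variable {p : ℕ} [Fact p.Prime] {ν : PadicAlgCl p ≃+* ℂ} {Z : RedAV p ν}
  {K : Type} [Field K] [NumberField K] [IsCMField K]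

theorem oddE_of_neat {i : Z.X.I} (h : IsNeat Z i) {e : Emb Z → ℕ} (he : IsRel Z e)
    (hs : ∀ w, w.1 ≠ i → e w = 0) (w : Emb Z) : oddE e w = 0 := by
  unfold oddE
  rw [h e he hs w]
  exact sub_self _

/-- Neat factors. -/
theorem relationsOver_of_neat {i : Z.X.I} (h : IsNeat Z i) (κ : K →+* ℂ)
    (ι : K →+* (Z.X.factor i).E) : RelationsOver κ Z i ι := by
  intro e he hs φ ψ _ _
  rw [oddE_of_neat h he hs, oddE_of_neat h he hs]

theorem neat_of_noRelations {i : Z.X.I} {d : ((Z.X.factor i).E →+* ℂ) → ℤ}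
    (hd : ∀ φ, d (ComplexEmbedding.conjugate φ) = -d φ) (hsl : HasSlopes Z i d)
    (hno : Pool.Agent.Q29.OS.NoRelationsOf d) : IsNeat Z i := by
  classical
  obtain ⟨c, hc, hsl⟩ := hsl
  intro e he hs
  have hn : ∀ σ : ℂ ≃+* ℂ, ∑ φ : (Z.X.factor i).E →+* ℂ,
      (e ⟨i, φ⟩ : ℤ) * d ((σ : ℂ →+* ℂ).comp φ) = 0 := by
    intro σ
    have h1 := Pool.Agent.TH170.GS.sum_dev_of_isRel he σ
    rw [Fintype.sum_sigma, Finset.sum_eq_single i] at h1
    · have h2 : ∀ φ : (Z.X.factor i).E →+* ℂ,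
          (e ⟨i, φ⟩ : ℝ) * Pool.Agent.TH170.GS.dev Z σ ⟨i, φ⟩ =
            c * (((e ⟨i, φ⟩ : ℤ) * d ((σ : ℂ →+* ℂ).comp φ) : ℤ) : ℝ) := by
        intro φ
        have h3 := hsl ((σ : ℂ →+* ℂ).comp φ)
        have h4 : Pool.Agent.TH170.GS.dev Z σ ⟨i, φ⟩ =
            2 * (-Real.logb p ‖ν.symm (((σ : ℂ →+* ℂ).comp φ) (Z.π i))‖) - Z.a := rfl
        rw [h4, h3]
        push_cast
        ring
      rw [Finset.sum_congr rfl fun φ _ => h2 φ, ← Finset.mul_sum] at h1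
      have h5 := (mul_eq_zero.1 h1).resolve_left hc
      exact_mod_cast h5
    · intro k _ hk
      refine Finset.sum_eq_zero fun φ _ => ?_
      rw [hs ⟨k, φ⟩ hk, Nat.cast_zero, zero_mul]
    · intro h
      exact absurd (Finset.mem_univ i) h
  have h0 := hno (fun φ => oddE e ⟨i, φ⟩) (fun φ => oddE_conj e ⟨i, φ⟩) fun σ => by
    have h6 : ∀ φ : (Z.X.factor i).E →+* ℂ,
        oddE e ⟨i, φ⟩ * d ((σ : ℂ →+* ℂ).comp φ) =
          (e ⟨i, φ⟩ : ℤ) * d ((σ : ℂ →+* ℂ).comp φ) -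
            (e ⟨i, ComplexEmbedding.conjugate φ⟩ : ℤ) * d ((σ : ℂ →+* ℂ).comp φ) := by
      intro φ
      have h7 : oddE e ⟨i, φ⟩ = (e ⟨i, φ⟩ : ℤ) - (e ⟨i, ComplexEmbedding.conjugate φ⟩ : ℤ) := rfl
      rw [h7, sub_mul]
    rw [Finset.sum_congr rfl fun φ _ => h6 φ, Finset.sum_sub_distrib, hn σ, zero_sub,
      neg_eq_zero]
    have h8 : ∑ φ : (Z.X.factor i).E →+* ℂ,
        (e ⟨i, ComplexEmbedding.conjugate φ⟩ : ℤ) * d ((σ : ℂ →+* ℂ).comp φ) =
        ∑ φ : (Z.X.factor i).E →+* ℂ, -((e ⟨i, φ⟩ : ℤ) * d ((σ : ℂ →+* ℂ).comp φ)) := by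
      refine Fintype.sum_equiv (Function.Involutive.toPerm
        (fun φ : (Z.X.factor i).E →+* ℂ => ComplexEmbedding.conjugate φ)
        (fun φ => cc_emb φ)) _ _ fun φ => ?_
      change (e ⟨i, ComplexEmbedding.conjugate φ⟩ : ℤ) * d ((σ : ℂ →+* ℂ).comp φ) =
        -((e ⟨i, ComplexEmbedding.conjugate φ⟩ : ℤ) *
          d ((σ : ℂ →+* ℂ).comp (ComplexEmbedding.conjugate φ)))
      rw [Pool.Agent.Q29.OS.comp_conj, hd]
      ring
    rw [h8, Finset.sum_neg_distrib, hn σ, neg_zero]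
  intro w
  obtain ⟨k, φ⟩ := w
  by_cases hk : k = i
  · subst hk
    have h9 : oddE e ⟨k, φ⟩ = 0 := congrFun h0 φ
    unfold oddE at h9
    omega
  · rw [hs ⟨k, φ⟩ hk, hs (conjE ⟨k, φ⟩) hk]

/-- **Odd prime powers.** The field `E` of the factor contains the imaginary quadratic field `K`, its
degree over `K` is a power of an odd prime number `r`, and the sum of the (integral multiples of the)
slope differences over the embeddings over `κ` is not divisible by `r`. -/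
theorem neat_of_primePower (hK : finrank ℚ K = 2) (κ : K →+* ℂ) {i : Z.X.I}
    (ι : K →+* (Z.X.factor i).E) {r k : ℕ} (hr : r.Prime) (hr2 : r ≠ 2)
    (hdeg : finrank ℚ (Z.X.factor i).E = 2 * r ^ k) {d : ((Z.X.factor i).E →+* ℂ) → ℤ}
    (hd : ∀ φ, d (ComplexEmbedding.conjugate φ) = -d φ) (hsl : HasSlopes Z i d)
    (hsum : ¬ (r : ℤ) ∣ ∑ᶠ φ : Above κ ι, d φ.1) : IsNeat Z i := by
  classical
  let _ : Algebra K (Z.X.factor i).E := ι.toAlgebra
  refine neat_of_noRelations hd hsl (Pool.Agent.Q29.OS.noRelationsOf_prime (F := K) r k hr hr2 hK ?_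
    hd κ ?_)
  · have h3 := finrank_mul_finrank ℚ K (Z.X.factor i).E
    rw [hdeg, hK] at h3
    exact Nat.eq_of_mul_eq_mul_left two_pos h3
  · intro h
    apply hsum
    rw [finsum_eq_sum_of_fintype]
    have h4 : ∑ φ : Above κ ι, d φ.1 = ∑ φ : (Z.X.factor i).E →+* ℂ with
        φ.comp (algebraMap K (Z.X.factor i).E) = κ, d φ := by
      rw [Finset.sum_subtype (p := fun φ : (Z.X.factor i).E →+* ℂ => φ.comp ι = κ)]
      intro x
      rw [Finset.mem_filter]
      exact ⟨fun h => h.2, fun h => ⟨Finset.mem_univ _, h⟩⟩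
    rw [h4]
    convert h

/-- **Fields with sign changes.** If any complex embedding `ψ` of the field of the factor different
from `φ` and its complex conjugate is exchanged with its complex conjugate by an automorphism of `ℂ`
which fixes `φ`, and the factor is not supersingular, then there are no relations. -/
theorem neat_of_flip {i : Z.X.I}
    (hflip : ∀ φ ψ : (Z.X.factor i).E →+* ℂ, ψ ≠ φ → ψ ≠ ComplexEmbedding.conjugate φ →
      ∃ σ : ℂ ≃+* ℂ, (σ : ℂ →+* ℂ).comp φ = φ ∧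
        (σ : ℂ →+* ℂ).comp ψ = ComplexEmbedding.conjugate ψ)
    (hss : ∀ m : ℕ, 0 < m → Z.π i ^ (2 * m) ≠ ((p : (Z.X.factor i).E) ^ Z.a) ^ m) :
    IsNeat Z i := by
  classical
  intro e he hs
  by_contra hne
  push Not at hne
  obtain ⟨⟨k, φ⟩, hw⟩ := hne
  have hk : k = i := by
    by_contra hk
    exact hw (by rw [hs ⟨k, φ⟩ hk, hs (conjE ⟨k, φ⟩) hk])
  subst hk
  have ha : oddE e ⟨k, φ⟩ ≠ 0 := by
    unfold oddE
    omega
  -- the stabilizer of the embedding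
  let aP : (ℂ ≃+* ℂ) → Equiv.Perm ((Z.X.factor k).E →+* ℂ) := fun σ =>
    { toFun := fun ψ => (σ : ℂ →+* ℂ).comp ψ
      invFun := fun ψ => (σ.symm : ℂ →+* ℂ).comp ψ
      left_inv := fun ψ => by
        ext x
        exact σ.symm_apply_apply _
      right_inv := fun ψ => by
        ext x
        exact σ.apply_symm_apply _ }
  let S : Finset (Equiv.Perm ((Z.X.factor k).E →+* ℂ)) :=
    Finset.univ.filter fun π => (∃ σ, π = aP σ) ∧ π φ = φ
  have hS : ∀ π, π ∈ S ↔ (∃ σ, π = aP σ) ∧ π φ = φ := fun π => by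
    simp only [S, Finset.mem_filter, Finset.mem_univ, true_and]
  let sg : Equiv.Perm ((Z.X.factor k).E →+* ℂ) → (ℂ ≃+* ℂ) := fun π =>
    if h : ∃ σ, π = aP σ then h.choose else RingEquiv.refl ℂ
  have hsg : ∀ π ∈ S, ∀ ψ, ((sg π : ℂ ≃+* ℂ) : ℂ →+* ℂ).comp ψ = π ψ := by
    intro π hπ ψ
    have h1 := ((hS π).1 hπ).1
    have h2 : sg π = h1.choose := dif_pos h1
    have h3 : π ψ = aP h1.choose ψ := by rw [← h1.choose_spec]
    rw [h2, h3]
    rfl
  let f : Emb Z → ℤ := ∑ π ∈ S, fun w => oddE e (aE Z (sg π) w)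
  have hf : f ∈ RelZ Z := (RelZ Z).sum_mem fun π _ => act_mem (oddE_mem he) (sg π)
  have happ : ∀ w, f w = ∑ π ∈ S, oddE e (aE Z (sg π) w) := fun w => Finset.sum_apply w S _
  have happ' : ∀ ψ, f ⟨k, ψ⟩ = ∑ π ∈ S, oddE e ⟨k, π ψ⟩ := by
    intro ψ
    rw [happ]
    refine Finset.sum_congr rfl fun π hπ => ?_
    rw [aE_apply]
    change oddE e ⟨k, ((sg π : ℂ ≃+* ℂ) : ℂ →+* ℂ).comp ψ⟩ = _
    rw [hsg π hπ]
  have hanti : ∀ w, f (conjE w) = -f w := by
    intro w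
    rw [happ, happ, ← Finset.sum_neg_distrib]
    refine Finset.sum_congr rfl fun π _ => ?_
    rw [aE_conjE, oddE_conj]
  have hoff : ∀ w : Emb Z, w.1 ≠ k → f w = 0 := by
    intro w hw
    rw [happ]
    refine Finset.sum_eq_zero fun π _ => ?_
    unfold oddE
    rw [hs _ (show (aE Z (sg π) w).1 ≠ k from hw), hs _ (show (conjE (aE Z (sg π) w)).1 ≠ k from hw)]
    rfl
  have hφ : f ⟨k, φ⟩ = S.card * oddE e ⟨k, φ⟩ := by
    rw [happ', Finset.sum_congr rfl fun π hπ => by rw [((hS π).1 hπ).2], Finset.sum_const,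
      nsmul_eq_mul]
  have hψ : ∀ ψ, ψ ≠ φ → ψ ≠ ComplexEmbedding.conjugate φ → f ⟨k, ψ⟩ = 0 := by
    intro ψ h1 h2
    obtain ⟨σ, h3, h4⟩ := hflip φ ψ h1 h2
    have h5 : f ⟨k, ComplexEmbedding.conjugate ψ⟩ = f ⟨k, ψ⟩ := by
      rw [happ', happ', ← h4]
      have h6 : (σ : ℂ →+* ℂ).comp ψ = aP σ ψ := rfl
      rw [h6]
      refine Finset.sum_nbij' (fun π => π * aP σ) (fun π => π * (aP σ)⁻¹) ?_ ?_ ?_ ?_ ?_
      · intro π hπ
        obtain ⟨⟨τ, hτ⟩, h7⟩ := (hS π).1 hπ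
        rw [hS]
        refine ⟨⟨σ.trans τ, ?_⟩, ?_⟩
        · rw [hτ]
          rfl
        · rw [Equiv.Perm.mul_apply]
          change π ((σ : ℂ →+* ℂ).comp φ) = φ
          rw [h3, h7]
      · intro π hπ
        obtain ⟨⟨τ, hτ⟩, h7⟩ := (hS π).1 hπ
        rw [hS]
        refine ⟨⟨σ.symm.trans τ, ?_⟩, ?_⟩
        · rw [hτ]
          rfl
        · rw [Equiv.Perm.mul_apply]
          have h8 : (aP σ)⁻¹ φ = φ := by
            rw [Equiv.Perm.inv_eq_iff_eq]
            exact h3.symm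
          rw [h8, h7]
      · intro π _
        exact mul_inv_cancel_right _ _
      · intro π _
        exact inv_mul_cancel_right _ _
      · intro π _
        rfl
    have h9 := hanti ⟨k, ψ⟩
    change f ⟨k, ComplexEmbedding.conjugate ψ⟩ = _ at h9
    rw [h5] at h9
    omega
  let u : Emb Z := ⟨k, φ⟩
  have hcu : conjE u ≠ u := conjE_ne u
  have hfeq : f = f u • (dl u - dl (conjE u)) := by
    funext w
    rw [Pi.smul_apply, smul_eq_mul, Pi.sub_apply]
    by_cases h1 : w = u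
    · rw [h1, dl_self, dl_ne hcu.symm, sub_zero, mul_one]
    by_cases h2 : w = conjE u
    · rw [h2, dl_self, dl_ne hcu, hanti]
      ring
    · rw [dl_ne h1, dl_ne h2, sub_zero, mul_zero]
      by_cases h3 : w.1 = k
      · obtain ⟨k', ψ⟩ := w
        obtain rfl : k' = k := h3
        refine hψ ψ (fun h => h1 ?_) fun h => h2 ?_
        · rw [h]
        · rw [h]
          rfl
      · exact hoff w h3
  have hfu : f u ≠ 0 := by
    change f ⟨k, φ⟩ ≠ 0
    rw [hφ]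
    refine mul_ne_zero (Nat.cast_ne_zero.2 (Finset.card_ne_zero_of_mem ((hS 1).2
      ⟨⟨RingEquiv.refl ℂ, ?_⟩, rfl⟩))) ha
    ext ψ x
    rfl
  have h1 : (dl u - dl (conjE u) : Emb Z → ℤ) ∈ RelZ Z := by
    refine sat (n := (f u).natAbs) (Int.natAbs_ne_zero.2 hfu) ?_
    rw [← natCast_zsmul, Int.natCast_natAbs]
    rcases abs_choice (f u) with h | h
    · rw [h, ← hfeq]
      exact hf
    · rw [h, neg_smul, ← hfeq]
      exact (RelZ Z).neg_mem hf
  have h2 : dl u ∈ RelZ Z := by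
    refine sat (n := 2) two_ne_zero ?_
    have h3 : (2 • dl u : Emb Z → ℤ) = (dl u - dl (conjE u)) + (dl u + dl (conjE u)) := by
      abel
    rw [h3]
    refine (RelZ Z).add_mem h1 (sym_mem_RelZ fun w => ?_)
    rw [Pi.add_apply, Pi.add_apply]
    have h4 : ∀ a b : Emb Z, dl a (conjE b) = dl (conjE a) b := by
      intro a b
      by_cases h : conjE b = a
      · rw [← h, conjE_conjE, dl_self, dl_self]
      · rw [dl_ne h, dl_ne]
        intro h5
        exact h (by rw [h5, conjE_conjE])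
    rw [h4, h4, conjE_conjE, add_comm]
  rw [mem_RelZ, val_dl, isOfFinOrder_iff_pow_eq_one] at h2
  obtain ⟨m, hm, h3⟩ := h2
  have h4 := congrArg (fun z : ℂˣ => (z : ℂ)) h3
  change ((un Z u ^ m : ℂˣ) : ℂ) = ((1 : ℂˣ) : ℂ) at h4
  rw [Units.val_pow_eq_pow_val, Units.val_one] at h4
  change (eig Z u ^ 2 / (p : ℂ) ^ Z.a) ^ m = 1 at h4
  rw [div_pow, div_eq_one_iff_eq (pow_ne_zero _ (q_ne Z)), ← pow_mul] at h4
  apply hss m hm
  apply φ.injective
  rw [map_pow, map_pow, map_pow, map_natCast]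
  exact h4

end

end Pool.Agent.U124.HQ
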