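import Pool.Agent.U124.HQ.Stm
import Pool.Agent.U124.HQ.Neat
import Pool.Agent.N202.QR.Final

/-!
# Products of good factors
-/

set_option autoImplicit false

namespace Pool.Agent.U124.HQ

open NumberField Module Pool.Agent.W495.TA Pool.Agent.TH117.PO Pool.Agent.TH117.BL
  Pool.Agent.N202.QR

variable {p : ℕ} [Fact p.Prime] {ν : PadicAlgCl p ≃+* ℂ} {Z : RedAV p ν}
  {K : Type} [Field K] [NumberField K] [IsCMField K]

theorem isRelation_of {i : Z.X.I} {e : Emb Z → ℕ} (he : IsRel Z e)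
    (hs : ∀ w, w.1 ≠ i → e w = 0) :
    Stm.IsRelation (p ^ Z.a) (Z.π i) fun φ => e ⟨i, φ⟩ := by
  classical
  obtain ⟨s, hs0, h⟩ := he
  refine ⟨s, hs0, ?_⟩
  have h1 : ∏ w, eig Z w ^ e w = ∏ φ : (Z.X.factor i).E →+* ℂ, φ (Z.π i) ^ e ⟨i, φ⟩ := by
    rw [Fintype.prod_sigma, Finset.prod_eq_single i]
    · rfl
    · intro k _ hk
      refine Finset.prod_eq_one fun φ _ => ?_
      rw [hs ⟨k, φ⟩ hk, pow_zero]
    · intro h
      exact absurd (Finset.mem_univ i) h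
  have h2 : ∑ w, e w = ∑ φ : (Z.X.factor i).E →+* ℂ, e ⟨i, φ⟩ := by
    rw [Fintype.sum_sigma, Finset.sum_eq_single i]
    · intro k _ hk
      refine Finset.sum_eq_zero fun φ _ => ?_
      rw [hs ⟨k, φ⟩ hk]
    · intro h
      exact absurd (Finset.mem_univ i) h
  rw [h1, h2] at h
  rw [h]
  push_cast
  rfl

theorem relationsOver_of_stm {κ : K →+* ℂ} {i : Z.X.I} {ι : K →+* (Z.X.factor i).E}
    (h : Stm.RelationsOver κ ι (p ^ Z.a) (Z.π i)) : RelationsOver κ Z i ι :=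
  fun _ he hs φ ψ hφ hψ => h _ (isRelation_of he hs) φ ψ hφ hψ

theorem neat_of_stm {i : Z.X.I} (h : Stm.IsNeat (p ^ Z.a) (Z.π i)) : IsNeat Z i := by
  intro e he hs w
  obtain ⟨k, φ⟩ := w
  by_cases hk : k = i
  · subst hk
    exact h _ (isRelation_of he hs) φ
  · rw [hs ⟨k, φ⟩ hk, hs (conjE ⟨k, φ⟩) hk]

/-- **The main theorem.** -/
theorem hodge_products (hK : finrank ℚ K = 2) (κ : K →+* ℂ) (Z : RedAV p ν)
    (hZ : ∀ i : Z.X.I,
      (∃ ι : K →+* (Z.X.factor i).E, Stm.IndepOver (F := fun i => (Z.X.factor i).E) κ i ι ∧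
        Stm.KindOver ν κ ι Z.a (Z.π i)) ∨
      (Stm.IndepConj (fun i => (Z.X.factor i).E) i ∧ Stm.KindFree (p ^ Z.a) (Z.π i)))
    {Ω : Nat.Primes → Type} [∀ l, Field (Ω l)] [∀ l, CharZero (Ω l)]
    [∀ l : Nat.Primes, Algebra ℚ_[(l : ℕ)] (Ω l)] [∀ l, IsAlgClosed (Ω l)]
    {C : (Y : RedAV p ν) → (κ : Type) → FCl Ω Y κ → Prop}
    (hC : IsCompatible Ω C) (l : Nat.Primes) (hR : IsRosatiPositive (Ω l) (atPrime C l))
    (hT : AreTate (Ω l) (atPrime C l)) (Y : RedAV p ν) (hYZ : IsPowersTimesSupersingular Z Y) :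
    HodgeType (Ω l) (atPrime C l) Y := by
  refine hodge_quadE hC l hR hT hK κ (Z := Z) (quad_of_good hK fun i => ?_) hYZ
  rcases hZ i with ⟨ι, hind, hkind⟩ | ⟨hind, hkind⟩
  · refine Or.inl ⟨ι, ?_, hind⟩
    rcases hkind with h | ⟨h, hπ⟩ | ⟨⟨g, hg, hdeg⟩, hπ⟩ | ⟨r, n, d, hr, hr2, hdeg, hd, hsl, hsum⟩ | h
    · intro e _ _ φ ψ hφ hψ
      have h1 : φ = ψ := by
        ext x
        obtain ⟨y, rfl⟩ := h x
        exact (RingHom.congr_fun hφ y).trans (RingHom.congr_fun hψ y).symm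
      rw [h1]
    · exact relationsOver_of_simple hK κ i ι (isSimple_of_two κ ι h) (Or.inr hπ)
    · exact relationsOver_of_simple hK κ i ι (isSimple_of_prime κ ι hg (by rw [hK, hdeg]))
        (Or.inr hπ)
    · exact relationsOver_of_neat (neat_of_primePower hK κ ι hr hr2 hdeg hd hsl hsum) κ ι
    · exact relationsOver_of_stm h
  · refine Or.inr ⟨?_, hind⟩
    rcases hkind with ⟨hflip, hss⟩ | h
    · refine neat_of_flip hflip fun m hm h => hss m hm ?_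
      rw [h]
      push_cast
      rfl
    · exact neat_of_stm h

end Pool.Agent.U124.HQ
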