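import Pool.Agent.N202.QR.RankOne

/-!
# The lattice of the multiplicative relations between the Frobenius eigenvalues

The relations with integral exponents between the eigenvalues of the Frobenius endomorphism of `Z`,
up to the number `q` and roots of unity, form a group `RelZ Z` that is saturated and stable under
the automorphisms of the field of complex numbers.
-/

set_option autoImplicit false

namespace Pool.Agent.U124.HQ

open NumberField Module Pool.Agent.W495.TA Pool.Agent.TH117.PO Pool.Agent.TH117.BL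
  Pool.Agent.N202.QR

noncomputable section

variable {p : ℕ} [Fact p.Prime] {ν : PadicAlgCl p ≃+* ℂ}

theorem q_ne (Z : RedAV p ν) : ((p : ℂ) ^ Z.a) ≠ 0 :=
  pow_ne_zero _ (Nat.cast_ne_zero.2 (Fact.out : p.Prime).ne_zero)

theorem eig_ne (Z : RedAV p ν) (w : Emb Z) : eig Z w ≠ 0 := by
  intro h
  have h1 := eig_conj w
  rw [h, zero_mul] at h1
  exact q_ne Z h1.symm

/-- The square of an eigenvalue, divided by `q`. -/
def un (Z : RedAV p ν) (w : Emb Z) : ℂˣ :=
  Units.mk0 (eig Z w ^ 2 / (p : ℂ) ^ Z.a) (div_ne_zero (pow_ne_zero _ (eig_ne Z w)) (q_ne Z))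

/-- The product of the normalised eigenvalues with the exponents `d`. -/
def val (Z : RedAV p ν) (d : Emb Z → ℤ) : ℂˣ := ∏ w, un Z w ^ d w

theorem val_add (Z : RedAV p ν) (d d' : Emb Z → ℤ) : val Z (d + d') = val Z d * val Z d' := by
  unfold val
  rw [← Finset.prod_mul_distrib]
  exact Finset.prod_congr rfl fun w _ => zpow_add _ _ _

theorem val_zero (Z : RedAV p ν) : val Z 0 = 1 := by
  unfold val
  exact Finset.prod_eq_one fun w _ => zpow_zero _

theorem val_neg (Z : RedAV p ν) (d : Emb Z → ℤ) : val Z (-d) = (val Z d)⁻¹ := by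
  rw [eq_comm, inv_eq_iff_mul_eq_one, ← val_add, add_neg_cancel, val_zero]

theorem val_nsmul (Z : RedAV p ν) (d : Emb Z → ℤ) (n : ℕ) : val Z (n • d) = val Z d ^ n := by
  induction n with
  | zero => rw [zero_smul, val_zero, pow_zero]
  | succ n ih => rw [succ_nsmul, val_add, ih, pow_succ]

/-- The group of the relations. -/
def RelZ (Z : RedAV p ν) : AddSubgroup (Emb Z → ℤ) where
  carrier := {d | IsOfFinOrder (val Z d)}
  zero_mem' := by
    change IsOfFinOrder (val Z 0)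
    rw [val_zero]
    exact IsOfFinOrder.one
  add_mem' := by
    intro d d' h h'
    change IsOfFinOrder (val Z (d + d'))
    rw [val_add]
    exact IsOfFinOrder.mul h h'
  neg_mem' := by
    intro d h
    change IsOfFinOrder (val Z (-d))
    rw [val_neg]
    exact IsOfFinOrder.inv h

theorem mem_RelZ {Z : RedAV p ν} {d : Emb Z → ℤ} : d ∈ RelZ Z ↔ IsOfFinOrder (val Z d) := Iff.rfl

/-- The group of the relations is saturated. -/
theorem sat {Z : RedAV p ν} {d : Emb Z → ℤ} {n : ℕ} (hn : n ≠ 0) (h : n • d ∈ RelZ Z) :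
    d ∈ RelZ Z := by
  rw [mem_RelZ, val_nsmul] at h
  exact IsOfFinOrder.of_pow h hn

theorem isRel_iff_mem {Z : RedAV p ν} (e : Emb Z → ℕ) :
    IsRel Z e ↔ (fun w => (e w : ℤ)) ∈ RelZ Z := by
  rw [mem_RelZ, isOfFinOrder_iff_pow_eq_one]
  unfold IsRel
  have hval : ((val Z fun w => (e w : ℤ) : ℂˣ) : ℂ) =
      (∏ w, eig Z w ^ e w) ^ 2 / ((p : ℂ) ^ Z.a) ^ (∑ w, e w) := by
    unfold val
    rw [Units.coe_prod]
    have h1 : ∀ w : Emb Z, ((un Z w ^ (e w : ℤ) : ℂˣ) : ℂ) =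
        (eig Z w ^ e w) ^ 2 / ((p : ℂ) ^ Z.a) ^ e w := by
      intro w
      rw [zpow_natCast, Units.val_pow_eq_pow_val]
      change (eig Z w ^ 2 / (p : ℂ) ^ Z.a) ^ e w = _
      rw [div_pow, pow_right_comm]
    rw [Finset.prod_congr rfl fun w _ => h1 w, Finset.prod_div_distrib, Finset.prod_pow,
      Finset.prod_pow_eq_pow_sum]
  have hq : ∀ n : ℕ, (((p : ℂ) ^ Z.a) ^ (∑ w, e w)) ^ n ≠ 0 := fun n =>
    pow_ne_zero _ (pow_ne_zero _ (q_ne Z))
  have key : ∀ s : ℕ, (∏ w, eig Z w ^ e w) ^ (2 * s) = ((p : ℂ) ^ Z.a) ^ (s * ∑ w, e w) ↔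
      (val Z fun w => (e w : ℤ)) ^ s = 1 := by
    intro s
    rw [← Units.val_inj, Units.val_pow_eq_pow_val, hval, Units.val_one, div_pow,
      div_eq_one_iff_eq (hq s), ← pow_mul ((p : ℂ) ^ Z.a) (∑ w, e w) s, mul_comm (∑ w, e w) s,
      pow_mul (∏ w, eig Z w ^ e w) 2 s]
  constructor
  · rintro ⟨s, hs, h⟩
    exact ⟨s, hs, (key s).1 h⟩
  · rintro ⟨s, hs, h⟩
    exact ⟨s, hs, (key s).2 h⟩

/-- The action of the automorphisms of `ℂ` on the pairs of a factor and an embedding. -/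
def aE (Z : RedAV p ν) (σ : ℂ ≃+* ℂ) : Emb Z ≃ Emb Z where
  toFun w := ⟨w.1, (σ : ℂ →+* ℂ).comp w.2⟩
  invFun w := ⟨w.1, (σ.symm : ℂ →+* ℂ).comp w.2⟩
  left_inv w := by
    refine Sigma.ext rfl (heq_of_eq ?_)
    ext x
    exact σ.symm_apply_apply _
  right_inv w := by
    refine Sigma.ext rfl (heq_of_eq ?_)
    ext x
    exact σ.apply_symm_apply _

theorem aE_apply (Z : RedAV p ν) (σ : ℂ ≃+* ℂ) (w : Emb Z) :
    aE Z σ w = ⟨w.1, (σ : ℂ →+* ℂ).comp w.2⟩ := rfl

theorem un_aE (Z : RedAV p ν) (σ : ℂ ≃+* ℂ) (w : Emb Z) :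
    un Z (aE Z σ w) = Units.map (σ : ℂ →* ℂ) (un Z w) := by
  refine Units.ext ?_
  change eig Z (aE Z σ w) ^ 2 / (p : ℂ) ^ Z.a = σ (eig Z w ^ 2 / (p : ℂ) ^ Z.a)
  rw [map_div₀, map_pow, map_pow, map_natCast]
  rfl

theorem val_act (Z : RedAV p ν) (σ : ℂ ≃+* ℂ) (d : Emb Z → ℤ) :
    Units.map (σ : ℂ →* ℂ) (val Z fun w => d (aE Z σ w)) = val Z d := by
  unfold val
  rw [map_prod]
  refine Fintype.prod_equiv (aE Z σ) _ _ fun w => ?_
  rw [map_zpow, un_aE]

/-- The group of the relations is stable under the automorphisms of `ℂ`. -/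
theorem act_mem {Z : RedAV p ν} {d : Emb Z → ℤ} (h : d ∈ RelZ Z) (σ : ℂ ≃+* ℂ) :
    (fun w => d (aE Z σ w)) ∈ RelZ Z := by
  rw [mem_RelZ] at h ⊢
  have h1 := val_act Z σ d
  rw [← h1] at h
  exact (Function.Injective.isOfFinOrder_iff (Units.map_injective σ.injective)).1 h

/-- Symmetric exponents are relations. -/
theorem sym_mem_RelZ {Z : RedAV p ν} {f : Emb Z → ℤ} (hf : ∀ w, f (conjE w) = f w) :
    f ∈ RelZ Z := by
  have hpair : ∀ w, un Z w * un Z (conjE w) = 1 := by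
    intro w
    refine Units.ext ?_
    change eig Z w ^ 2 / (p : ℂ) ^ Z.a * (eig Z (conjE w) ^ 2 / (p : ℂ) ^ Z.a) = 1
    rw [div_mul_div_comm, ← mul_pow, eig_conj, ← sq]
    exact div_self (pow_ne_zero _ (q_ne Z))
  refine sat (n := 2) two_ne_zero ?_
  rw [mem_RelZ, val_nsmul]
  have h1 : val Z f = ∏ w, un Z (conjE w) ^ f w := by
    unfold val
    refine Fintype.prod_equiv (Function.Involutive.toPerm conjE conjE_conjE) _ _ fun w => ?_
    change un Z w ^ f w = un Z (conjE (conjE w)) ^ f (conjE w)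
    rw [conjE_conjE, hf]
  have h2 : val Z f ^ 2 = 1 := by
    rw [sq]
    nth_rewrite 2 [h1]
    unfold val
    rw [← Finset.prod_mul_distrib]
    refine Finset.prod_eq_one fun w _ => ?_
    rw [← mul_zpow, hpair, one_zpow]
  rw [h2]
  exact IsOfFinOrder.one

theorem conjE_eq_aE {Z : RedAV p ν} (w : Emb Z) :
    conjE w = aE Z (starRingAut : ℂ ≃+* ℂ) w := rfl

/-- The odd part of a relation. -/
theorem oddE_mem {Z : RedAV p ν} {e : Emb Z → ℕ} (he : IsRel Z e) : oddE e ∈ RelZ Z := by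
  rw [isRel_iff_mem] at he
  have h1 := act_mem he (starRingAut : ℂ ≃+* ℂ)
  exact (RelZ Z).sub_mem he h1

/-- The positive part of an antisymmetric relation. -/
theorem toNat_rel {Z : RedAV p ν} {b : Emb Z → ℤ} (hb : b ∈ RelZ Z)
    (hodd : ∀ w, b (conjE w) = -b w) : IsRel Z fun w => (b w).toNat := by
  rw [isRel_iff_mem]
  refine sat (n := 2) two_ne_zero ?_
  have h1 : (2 • fun w : Emb Z => (((b w).toNat : ℕ) : ℤ)) = b + fun w => |b w| := by
    funext w
    simp only [Pi.smul_apply, Pi.add_apply, nsmul_eq_mul]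
    rcases le_total 0 (b w) with h | h
    · rw [abs_of_nonneg h, Int.toNat_of_nonneg h]
      ring
    · rw [abs_of_nonpos h, Int.toNat_of_nonpos h]
      push_cast
      ring
  rw [h1]
  refine (RelZ Z).add_mem hb (sym_mem_RelZ fun w => ?_)
  rw [hodd, abs_neg]

end

end Pool.Agent.U124.HQ
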